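import Pool.Agent.Helper20.FR.St

/-!
# Project R20, module RA: uniform quasi-inverses
-/

set_option autoImplicit false

open Topology Filter

namespace Pool.Agent.Helper71.R20

open Pool.Agent.Helper20.FA
open Pool.Agent.Helper20.FR

section
variable {A : Type} [NonUnitalCommRing A] [Module ℂ A] [IsScalarTower ℂ A A]
  [SMulCommClass ℂ A A]

private theorem pow_form (a : A) (n : ℕ) (z : A) :
    ((LinearMap.mulLeft ℂ a) ^ (n + 1)) z = ((fun z => a * z)^[n] a) * z := by
  induction n with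
  | zero => simp
  | succ n ih =>
    rw [pow_succ', Module.End.mul_apply, ih, LinearMap.mulLeft_apply, Function.iterate_succ_apply',
      mul_assoc]

private theorem pow_comm (a d : A) (i : ℕ) (z : A) :
    ((LinearMap.mulLeft ℂ a) ^ i) (d * z) = d * ((LinearMap.mulLeft ℂ a) ^ i) z := by
  induction i with
  | zero => simp
  | succ i ih =>
    rw [pow_succ', Module.End.mul_apply, ih, Module.End.mul_apply, LinearMap.mulLeft_apply,
      LinearMap.mulLeft_apply, mul_left_comm]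

private theorem main_bd (r : Seminorm ℂ A) (hm : ∀ a b, r (a * b) ≤ r a * r b) (a d : A) (K : ℝ)
    (hK0 : 0 ≤ K)
    (hK : ∀ (i : ℕ) (z : A), r (((LinearMap.mulLeft ℂ a) ^ i) z) ≤ K * (1 / 8) ^ i * r z)
    (hd : r d ≤ 1 / 8) (n : ℕ) : ∀ (i : ℕ) (z : A),
    r (((LinearMap.mulLeft ℂ (a + d)) ^ n) (((LinearMap.mulLeft ℂ a) ^ i) z)) ≤
      K * (1 / 4) ^ n * (1 / 8) ^ i * r z := by
  induction n with
  | zero =>
    intro i z
    simpa using hK i z
  | succ n ih =>
    intro i z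
    have e1 : ((LinearMap.mulLeft ℂ (a + d)) ^ (n + 1)) (((LinearMap.mulLeft ℂ a) ^ i) z) =
        ((LinearMap.mulLeft ℂ (a + d)) ^ n) (((LinearMap.mulLeft ℂ a) ^ (i + 1)) z) +
        ((LinearMap.mulLeft ℂ (a + d)) ^ n) (((LinearMap.mulLeft ℂ a) ^ i) (d * z)) := by
      rw [pow_succ, Module.End.mul_apply, LinearMap.mulLeft_apply, add_mul, map_add,
        pow_comm a d i z, pow_succ' (LinearMap.mulLeft ℂ a) i, Module.End.mul_apply,
        LinearMap.mulLeft_apply]
    rw [e1]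
    have h1 := ih (i + 1) z
    have h2 := ih i (d * z)
    have h3 : r (d * z) ≤ 1 / 8 * r z :=
      (hm d z).trans (mul_le_mul_of_nonneg_right hd (apply_nonneg r z))
    have h4 : K * (1 / 4) ^ n * (1 / 8) ^ i * r (d * z) ≤
        K * (1 / 4) ^ n * (1 / 8) ^ i * (1 / 8 * r z) :=
      mul_le_mul_of_nonneg_left h3 (by positivity)
    calc _ ≤ _ := map_add_le_add r _ _
      _ ≤ K * (1 / 4) ^ n * (1 / 8) ^ (i + 1) * r z +
          K * (1 / 4) ^ n * (1 / 8) ^ i * (1 / 8 * r z) := by linarith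
      _ = K * (1 / 4) ^ (n + 1) * (1 / 8) ^ i * r z := by ring

private theorem tele (r : Seminorm ℂ A) (x c : A) (K : ℝ)
    (hK : ∀ (n : ℕ) (z : A), r (((LinearMap.mulLeft ℂ x) ^ n) z) ≤ K * r z) (m : ℕ) :
    r c ≤ m * (K * r (c + x * c)) + r (((LinearMap.mulLeft ℂ x) ^ m) c) := by
  induction m with
  | zero => simp
  | succ m ih =>
    have h1 : ((LinearMap.mulLeft ℂ x) ^ m) c = ((LinearMap.mulLeft ℂ x) ^ m) (c + x * c) -
        ((LinearMap.mulLeft ℂ x) ^ (m + 1)) c := by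
      rw [pow_succ, Module.End.mul_apply, LinearMap.mulLeft_apply, map_add]
      abel
    have h2 : r (((LinearMap.mulLeft ℂ x) ^ m) c) ≤ K * r (c + x * c) +
        r (((LinearMap.mulLeft ℂ x) ^ (m + 1)) c) := by
      rw [h1]
      exact (map_sub_le_add r _ _).trans (add_le_add (hK m _) le_rfl)
    push_cast
    linarith

end

/-- Module RA. -/
theorem hRA : StRA := by
  intro A _ _ _ _ r q hm hrad α C hC hcau hα
  obtain ⟨N, hN⟩ := hcau (1 / 8) (by norm_num)
  obtain ⟨K, hK⟩ := hrad (α N) (1 / 8) (by norm_num)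
  obtain ⟨K1, hK1⟩ : ∃ K1, K1 = max 1 (8 * K) := ⟨_, rfl⟩
  have hK1a : 1 ≤ K1 := by rw [hK1]; exact le_max_left _ _
  have hK1b : 8 * K ≤ K1 := by rw [hK1]; exact le_max_right _ _
  have hK10 : 0 ≤ K1 := by linarith
  have hb : ∀ (i : ℕ) (z : A), r (((LinearMap.mulLeft ℂ (α N)) ^ i) z) ≤
      K1 * (1 / 8) ^ i * r z := by
    intro i z
    have hz := apply_nonneg r z
    cases i with
    | zero =>
      rw [pow_zero, pow_zero, mul_one, Module.End.one_apply]
      nlinarith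
    | succ i =>
      rw [pow_form]
      calc r (((fun z => α N * z)^[i] (α N)) * z) ≤ r ((fun z => α N * z)^[i] (α N)) * r z :=
            hm _ _
        _ ≤ (K * (1 / 8) ^ i) * r z := mul_le_mul_of_nonneg_right (hK i) hz
        _ = (8 * K) * (1 / 8) ^ (i + 1) * r z := by ring
        _ ≤ K1 * (1 / 8) ^ (i + 1) * r z := by
            apply mul_le_mul_of_nonneg_right _ hz
            exact mul_le_mul_of_nonneg_right hK1b (by positivity)
  have hT : ∀ k, N ≤ k → ∀ (n : ℕ) (z : A), r (((LinearMap.mulLeft ℂ (α k)) ^ n) z) ≤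
      K1 * (1 / 4) ^ n * r z := by
    intro k hk n z
    have h1 := main_bd r hm (α N) (α k - α N) K1 hK10 hb (hN k hk) n 0 z
    rw [add_sub_cancel, pow_zero, pow_zero, mul_one, Module.End.one_apply] at h1
    exact h1
  obtain ⟨m, hm1⟩ := exists_pow_lt_of_lt_one (show (0 : ℝ) < 1 / (4 * K1) by positivity)
    (show (1 / 4 : ℝ) < 1 by norm_num)
  obtain ⟨k0, hk0⟩ := exists_pow_lt_of_lt_one (show (0 : ℝ) < 1 / (4 * (m * K1 + 1)) by positivity)
    (show (1 / 2 : ℝ) < 1 by norm_num)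
  obtain ⟨k, hk⟩ : ∃ k, k = max N k0 := ⟨_, rfl⟩
  have hkN : N ≤ k := by rw [hk]; exact le_max_left _ _
  have hkk : k0 ≤ k := by rw [hk]; exact le_max_right _ _
  refine ⟨2 * (m * K1 * C), fun c => ?_⟩
  have hc := apply_nonneg r c
  have hT' : ∀ (n : ℕ) (z : A), r (((LinearMap.mulLeft ℂ (α k)) ^ n) z) ≤ K1 * r z := by
    intro n z
    refine (hT k hkN n z).trans ?_
    apply mul_le_mul_of_nonneg_right _ (apply_nonneg r z)
    calc K1 * (1 / 4) ^ n ≤ K1 * 1 :=
          mul_le_mul_of_nonneg_left (pow_le_one₀ (by norm_num) (by norm_num)) hK10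
      _ = K1 := mul_one _
  have h1 := tele r (α k) c K1 hT' m
  have h2 := hT k hkN m c
  have h3 := hα k c
  have h4 : K1 * (1 / 4) ^ m * r c ≤ 1 / 4 * r c := by
    apply mul_le_mul_of_nonneg_right _ hc
    rw [lt_div_iff₀ (by positivity)] at hm1
    nlinarith
  have h5 : (m : ℝ) * K1 * (1 / 2) ^ k ≤ 1 / 4 := by
    have h6 : (1 / 2 : ℝ) ^ k ≤ (1 / 2) ^ k0 := pow_le_pow_of_le_one (by norm_num) (by norm_num) hkk
    rw [lt_div_iff₀ (by positivity)] at hk0
    have h7 : 0 ≤ (m : ℝ) * K1 := by positivity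
    have h8 : (m : ℝ) * K1 * (1 / 2) ^ k ≤ (m : ℝ) * K1 * (1 / 2) ^ k0 :=
      mul_le_mul_of_nonneg_left h6 h7
    have h9 : (0 : ℝ) < (1 / 2) ^ k0 := by positivity
    nlinarith
  have h6 : (m : ℝ) * (K1 * r (c + α k * c)) ≤ m * K1 * C * q c + 1 / 4 * r c := by
    calc (m : ℝ) * (K1 * r (c + α k * c)) = m * K1 * r (c + α k * c) := by ring
      _ ≤ m * K1 * (C * q c + (1 / 2) ^ k * r c) :=
          mul_le_mul_of_nonneg_left h3 (by positivity)
      _ = m * K1 * C * q c + (m * K1 * (1 / 2) ^ k) * r c := by ring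
      _ ≤ _ := by
          have := mul_le_mul_of_nonneg_right h5 hc
          linarith
  linarith

end Pool.Agent.Helper71.R20
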